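import Pool.Agent.Helper37.LN2.Defs
import Pool.Agent.Helper79.LN.LOC

/-!
# Project LN2, block LOC': the refined local theorem, with the algebraic closure of Mathlib
-/

set_option autoImplicit false

namespace Pool.Agent.LN2

open VC IntermediateField Pool.Agent.SC NumberField
open Pool.Agent.HG (Pr nm)
open Pool.Agent.L (tO tA tA_apply)

theorem fixesD_t {k E E' : Type} [Field k] [NumberField k] [Field E] [Algebra k E] [Field E'] [Algebra k E']
    (e : E ≃ₐ[k] E') {K0 : Type} [Field K0] [Algebra k K0] {h : K0} {D : ℕ → Prop} {g : E ≃ₐ[k] E}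
    (hg : FixesD h D g) : FixesD h D (tA e g) := by
  obtain ⟨P, φ, h1, h2, h3, h4⟩ := hg
  refine ⟨P, (e : E →+* E').comp φ, h1, h2, fun a x hx => ?_, fun x => ?_⟩
  · change e (φ x) = _
    rw [h3 a x hx, AlgEquiv.commutes]
  · change tA e g (e (φ x)) = e (φ x)
    rw [tA_apply, AlgEquiv.symm_apply_apply, h4]

/-- **Block LOC'.** -/
theorem stmtLOC (hTR : LN.StmtTR) (hK5 : LN2.StmtK5) (hFR : LN.StmtFR) : LN2.StmtLOC := by
  intro k K0 _ _ _ _ n h hn hgood
  obtain ⟨E, U, i1, i2, i3, i4, i5, i6, i7, i8, r, hgeo, hsec⟩ := hTR k K0 n h hn hgood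
  obtain ⟨Bad, hBad, hmain⟩ := hK5 k K0 E U n h r hn hgeo
  refine ⟨Bad, hBad, ?_⟩
  intro v hv c hc hodd hs
  have hac : IsAlgClosed E := hgeo.clE
  have halg : Algebra.IsAlgebraic k E := hgeo.algE
  obtain ⟨Φ, hΦ⟩ := hsec c hc hs
  obtain ⟨O, F, p, f, hD⟩ := hFR k E v
  have h1 := hmain v hv c hc hodd Φ hΦ O F p f hD
  have hcl : IsAlgClosure k E := ⟨hac, halg⟩
  let e : E ≃ₐ[k] AlgebraicClosure k := IsAlgClosure.equiv k E (AlgebraicClosure k)
  exact ⟨tO e O, tA e F, p, f, LN.decPt_t e hD, fixesD_t e h1⟩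

end Pool.Agent.LN2
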