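import Pool.Agent.Helper99.LN.Defs

/-!
# Project LN2 (MP_e66f84_ag): cyclic twists, the refined form

`k` number field, `n ≥ 2` (no roots of unity are assumed in `k`), `K0 / k` the function field of a curve
`Y`, `h ∈ K0`, twists `X_c : y ^ n = c h`.

LOCAL: for almost all `v` with `n ∤ v(c)`: if (a curve above) `X_c` has a section then a Frobenius
element at `v` fixes a point `P` of `Y` with `gcd(n, ord_P h) ∣ v(c)`.

GLOBAL: if some `σ` fixes no TOTALLY ramified point (a point `P` with `ord_P h` prime to `n`), then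
almost all twists have no section.
-/

set_option autoImplicit false

namespace Pool.Agent.LN2

open VC IntermediateField NumberField IsDedekindDomain Pool.Agent.SC Pool.Agent.Helper91.Sect
open Pool.Agent.HG (Pr nm)
open Pool.Agent.L (Inert FPair L0 MM SamePlace OverV cst)
open Pool.Agent.LN (Geo Act HasSec GoodCurve IsRam DecPt Cls clsP)

noncomputable section

/-- some point `P` of `Y` at which the valuation of `h` is divisible by no `d` with `D d`, and an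
embedding of its residue field in `E`, are fixed by `g` -/
def FixesD {k K0 E : Type} [Field k] [Field K0] [Field E] [Algebra k K0] [Algebra k E]
    (h : K0) (D : ℕ → Prop) (g : E ≃ₐ[k] E) : Prop :=
  ∃ (P : ValuationSubring K0) (φ : P →+* E), (∀ a : k, algebraMap k K0 a ∈ P) ∧
    (∀ d : ℕ, D d → ∀ z : K0, P.valuation h ≠ P.valuation z ^ d) ∧
    (∀ (a : k) (x : P), (x : K0) = algebraMap k K0 a → φ x = algebraMap k E a) ∧
    ∀ x : P, g (φ x) = φ x

/-- BLOCK K5' (the local theorem, refined): `F` fixes a point `P` such that every divisor `d` of `n`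
which divides `ord_P h` divides `v(c)`. -/
def StmtK5 : Prop :=
  ∀ (k K0 E U : Type) [Field k] [NumberField k] [Field K0] [Field E] [Field U] [Algebra k K0]
    [Algebra k E] [Algebra E U] [Algebra K0 U] [Algebra k U] [IsScalarTower k E U]
    [IsScalarTower k K0 U] (n : ℕ) (h : K0) (r : U), 2 ≤ n → Geo k K0 E U n h r →
    ∃ Bad : Set (Pr k), Bad.Finite ∧ ∀ v ∉ Bad, ∀ c : k, c ≠ 0 → IsRam n v c →
      ∀ Φ : (E ≃ₐ[k] E) →* (U ≃+* U), Act (K0 := K0) n r c Φ →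
      ∀ (O : ValuationSubring E) (F : E ≃ₐ[k] E) (p f : ℕ), DecPt v O F p f →
        FixesD h (fun d => d ∣ n ∧ IsRam d v c) F

/-- BLOCK LOC'. -/
def StmtLOC : Prop :=
  ∀ (k K0 : Type) [Field k] [NumberField k] [Field K0] [Algebra k K0] (n : ℕ) (h : K0), 2 ≤ n →
    GoodCurve k n h →
    ∃ Bad : Set (Pr k), Bad.Finite ∧ ∀ v ∉ Bad, ∀ c : k, c ≠ 0 → IsRam n v c → HasSec n h c →
      ∃ (O : ValuationSubring (AlgebraicClosure k)) (F : AlgebraicClosure k ≃ₐ[k] AlgebraicClosure k)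
        (p f : ℕ), DecPt v O F p f ∧ FixesD h (fun d => d ∣ n ∧ IsRam d v c) F

open scoped Classical in
/-- BLOCK DEN' (`StmtDEN` with `FixesD h D`, `D n`, in place of `FixesBranch n h`). -/
def StmtDEN : Prop :=
  ∀ (k K0 : Type) [Field k] [NumberField k] [Field K0] [Algebra k K0] (n : ℕ) (h : K0), 2 ≤ n →
    GoodCurve k n h → ∀ D : ℕ → Prop, D n →
    ∀ σ : AlgebraicClosure k ≃ₐ[k] AlgebraicClosure k, ¬ FixesD h D σ →
    ∀ B : ℕ → Finset (Pr k), (∀ x v, v ∈ B x ↔ nm v ≤ x) →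
    ∃ (δ C : ℝ) (Q : Set (Pr k)), 0 < δ ∧
      (∀ v ∈ Q, ∀ (O : ValuationSubring (AlgebraicClosure k))
        (F : AlgebraicClosure k ≃ₐ[k] AlgebraicClosure k) (p f : ℕ), DecPt v O F p f →
        ¬ FixesD h D F) ∧
      ∀ x : ℕ, 2 ≤ x →
        |∑ v ∈ (B x).filter (· ∈ Q), (1 : ℝ) / nm v - δ * Real.log (Real.log x)| ≤ C

open scoped Classical in
/-- BLOCK UP' (weight `w'` at the primes of `Q`, weight `w` at the other primes). -/
def StmtUP : Prop :=
  ∀ (k : Type) [Field k] [NumberField k] (w w' : ℕ), 1 ≤ w → w' ≤ w → ∀ (Q : Set (Pr k)) (δ C : ℝ)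
    (B : ℕ → Finset (Pr k)), (∀ x v, v ∈ B x ↔ nm v ≤ x) →
    (∀ x : ℕ, 2 ≤ x → δ * Real.log (Real.log x) - C ≤
      ∑ v ∈ (B x).filter (· ∈ Q), (1 : ℝ) / nm v) →
    ∃ C' : ℝ, 0 < C' ∧ ∀ x : ℕ, 3 ≤ x → ∀ S : Finset (Finset (Pr k)),
      (∀ s ∈ S, ∏ v ∈ s, nm v ≤ x) →
      ∑ s ∈ S, ∏ v ∈ s, (if v ∈ Q then (w' : ℝ) else (w : ℝ)) ≤
        C' * x * Real.log x ^ ((w : ℝ) - ((w : ℝ) - w') * δ - 1)

open scoped Classical in
/-- BLOCK CLS' (from sets of primes to classes, upper bound): at the primes of `Q` the valuation of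
`c` is not prime to `n` if `Bd c`. -/
def StmtCLS : Prop :=
  ∀ (k : Type) [Field k] [NumberField k] (n : ℕ), 2 ≤ n →
    ∃ F : ℕ, ∀ (Bd : k → Prop) (Q : Set (Pr k)) (Y : ℕ) (Φ : ℝ),
      (∀ c : k, c ≠ 0 → Bd c → ∀ v ∈ Q, IsRam n v c → ∃ d : ℕ, d ∣ n ∧ 1 < d ∧ ¬ IsRam d v c) →
      (∀ SS : Finset (Finset (Pr k)), (∀ A ∈ SS, ∏ v ∈ A, nm v ≤ Y) →
        ∑ A ∈ SS, ∏ v ∈ A, (if v ∈ Q then ((n - 1 - n.totient : ℕ) : ℝ) else ((n - 1 : ℕ) : ℝ)) ≤
          Φ) →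
      ∀ T : Finset k, (∀ c ∈ T, ∀ c' ∈ T, (∃ d : k, c = c' * d ^ n) → c = c') →
        (∀ c ∈ T, c ≠ 0 ∧ LN.cond n c ≤ Y ∧ Bd c) → (T.card : ℝ) ≤ F * Φ

/-- some totally ramified point `P` of `Y` (the valuation of `h` at `P` is prime to `n`), and an
embedding of its residue field in `E`, are fixed by `g` -/
def FixesTot {k K0 E : Type} [Field k] [Field K0] [Field E] [Algebra k K0] [Algebra k E]
    (n : ℕ) (h : K0) (g : E ≃ₐ[k] E) : Prop :=
  ∃ (P : ValuationSubring K0) (φ : P →+* E), (∀ a : k, algebraMap k K0 a ∈ P) ∧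
    (∀ d : ℕ, d ∣ n → 1 < d → ∀ z : K0, P.valuation h ≠ P.valuation z ^ d) ∧
    (∀ (a : k) (x : P), (x : K0) = algebraMap k K0 a → φ x = algebraMap k E a) ∧
    ∀ x : P, g (φ x) = φ x

/-- The final theorem of project LN2. -/
def StmtFin : Prop :=
  ∀ (k K0 : Type) [Field k] [NumberField k] [Field K0] [Algebra k K0] (n : ℕ) (h : K0), 2 ≤ n →
    GoodCurve k n h →
    (∃ σ : AlgebraicClosure k ≃ₐ[k] AlgebraicClosure k, ¬ FixesTot n h σ) →
    (∀ X : ℕ, (clsP (k := k) n (fun _ => True) X).Finite) ∧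
    ∃ η C : ℝ, 0 < η ∧ 0 < C ∧ ∀ X : ℕ, 3 ≤ X →
      (Nat.card (clsP n (fun c : k => HasSec n h c) X) : ℝ) ≤
        C * Nat.card (clsP (k := k) n (fun _ => True) X) / Real.log X ^ η

end

end Pool.Agent.LN2
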