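import Pool.Agent.Helper37.LN2.Defs
import Pool.Agent.Helper99.LN.K5

/-!
# Project LN2, block K5': preparations
-/

set_option autoImplicit false

namespace Pool.Agent.LN2

open VC IntermediateField NumberField IsDedekindDomain Pool.Agent.SC Pool.Agent.Helper91.Sect
open Pool.Agent.HG (Pr nm)
open Pool.Agent.L

noncomputable section

section gen

variable {k E : Type} [Field k] [Field E] [Algebra k E] {O : ValuationSubring E}

theorem inert_one37 : Inert O (1 : E ≃ₐ[k] E).toRingEquiv := by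
  refine ⟨fun z => Iff.rfl, fun z _ => ?_⟩
  change O.valuation (z - z) < 1
  rw [sub_self, map_zero]
  exact zero_lt_one

theorem inert_mul37 {σ τ : E ≃ₐ[k] E} (hσ : Inert O σ.toRingEquiv) (hτ : Inert O τ.toRingEquiv) :
    Inert O (σ * τ).toRingEquiv := by
  have h1 : ∀ z, σ z ∈ O ↔ z ∈ O := hσ.stab
  have h2 : ∀ z, τ z ∈ O ↔ z ∈ O := hτ.stab
  refine ⟨fun z => (h1 (τ z)).trans (h2 z), fun z hz => ?_⟩
  change O.valuation (σ (τ z) - z) < 1
  have e : σ (τ z) - z = (σ (τ z) - τ z) + (τ z - z) := by ring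
  rw [e]
  exact Valuation.map_add_lt _ (hσ.res _ ((h2 z).2 hz)) (hτ.res z hz)

/-- an inertia element which acts on `d`, `d ^ n = c`, with maximal order -/
theorem exists_gen37 {n : ℕ} (hn : 0 < n) {ζ : E} (hζ : IsPrimitiveRoot ζ n) {d : E} {c : k}
    (hd0 : d ≠ 0) (hd : d ^ n = algebraMap k E c)
    (hfix : ∀ τ : E ≃ₐ[k] E, Inert O τ.toRingEquiv → τ ζ = ζ) :
    ∃ τ₀ : E ≃ₐ[k] E, Inert O τ₀.toRingEquiv ∧ ∀ τ : E ≃ₐ[k] E, Inert O τ.toRingEquiv →
      ∃ m : ℕ, d / τ d = (d / τ₀ d) ^ m := by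
  have hτ0 : ∀ τ : E ≃ₐ[k] E, τ d ≠ 0 := fun τ => (map_ne_zero τ).2 hd0
  have hdn : ∀ τ : E ≃ₐ[k] E, (d / τ d) ^ n = 1 := by
    intro τ
    rw [div_pow, ← map_pow, hd, AlgEquiv.commutes, div_self]
    rw [← hd]
    exact pow_ne_zero _ hd0
  have : NeZero n := ⟨hn.ne'⟩
  have hfix' : ∀ σ τ : E ≃ₐ[k] E, Inert O σ.toRingEquiv → σ (d / τ d) = d / τ d := by
    intro σ τ hσ
    obtain ⟨i, -, hi⟩ := hζ.eq_pow_of_pow_eq_one (hdn τ)
    rw [← hi, map_pow, hfix σ hσ]
  have hmul : ∀ σ τ : E ≃ₐ[k] E, Inert O σ.toRingEquiv →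
      d / (σ * τ) d = d / σ d * (d / τ d) := by
    intro σ τ hσ
    have h1 := hfix' σ τ hσ
    rw [map_div₀] at h1
    rw [← h1, AlgEquiv.mul_apply]
    have := hτ0 σ
    field_simp
  have hpow : ∀ (τ : E ≃ₐ[k] E), Inert O τ.toRingEquiv → ∀ m : ℕ,
      d / (τ ^ m) d = (d / τ d) ^ m := by
    intro τ hτ m
    induction m with
    | zero => rw [pow_zero, pow_zero, AlgEquiv.one_apply, div_self hd0]
    | succ m ih => rw [pow_succ, hmul _ _ (inert_pow29 hτ m), ih, pow_succ]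
  let H : Subgroup Eˣ :=
    { carrier := {u : Eˣ | ∃ τ : E ≃ₐ[k] E, Inert O τ.toRingEquiv ∧ (u : E) = d / τ d}
      mul_mem' := by
        rintro u w ⟨σ, hσ, hu⟩ ⟨τ, hτ, hw⟩
        exact ⟨σ * τ, inert_mul37 hσ hτ, by rw [hmul σ τ hσ, Units.val_mul, hu, hw]⟩
      one_mem' := ⟨1, inert_one37, by rw [AlgEquiv.one_apply, div_self hd0, Units.val_one]⟩
      inv_mem' := by
        rintro u ⟨τ, hτ, hu⟩
        refine ⟨τ ^ (n - 1), inert_pow29 hτ _, ?_⟩
        rw [hpow τ hτ, ← hu, ← Units.val_pow_eq_pow_val]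
        congr 1
        rw [inv_eq_iff_mul_eq_one, ← pow_succ', Nat.sub_add_cancel hn]
        apply Units.ext
        rw [Units.val_pow_eq_pow_val, hu, hdn, Units.val_one] }
  have hH : ∀ u : Eˣ, u ∈ H ↔ ∃ τ : E ≃ₐ[k] E, Inert O τ.toRingEquiv ∧ (u : E) = d / τ d :=
    fun u => Iff.rfl
  have hle : H ≤ rootsOfUnity n E := by
    rintro u ⟨τ, -, hu⟩
    rw [mem_rootsOfUnity]
    apply Units.ext
    rw [Units.val_pow_eq_pow_val, hu, hdn, Units.val_one]
  have hfin : Finite H := Finite.of_injective _ (Subgroup.inclusion_injective hle)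
  have hcyc : IsCyclic H := inferInstance
  obtain ⟨⟨g, hg⟩, hgen⟩ := hcyc.exists_generator
  obtain ⟨τ₀, hτ₀, hg'⟩ := (hH g).1 hg
  refine ⟨τ₀, hτ₀, fun τ hτ => ?_⟩
  have hu0 : d / τ d ≠ 0 := div_ne_zero hd0 (hτ0 τ)
  have hu : Units.mk0 (d / τ d) hu0 ∈ H := (hH _).2 ⟨τ, hτ, rfl⟩
  have h1 := hgen ⟨_, hu⟩
  rw [← mem_powers_iff_mem_zpowers] at h1
  obtain ⟨m, hm⟩ := h1
  refine ⟨m, ?_⟩
  have h2 : ((⟨g, hg⟩ : H) ^ m : H) = ⟨Units.mk0 (d / τ d) hu0, hu⟩ := hm
  have h3 : g ^ m = Units.mk0 (d / τ d) hu0 := congrArg Subtype.val h2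
  have h4 := congrArg Units.val h3
  rw [Units.val_pow_eq_pow_val, hg', Units.val_mk0] at h4
  exact h4.symm

end gen

section branch

variable {k K0 E U : Type} [Field k] [Field K0] [Field E] [Field U] [Algebra k K0]
    [Algebra k E] [Algebra E U] [Algebra K0 U] [Algebra k U] [IsScalarTower k E U]
    [IsScalarTower k K0 U]

variable [IsAlgClosed E] [CharZero E]

/-- the conclusion of block K5' from the fixed place -/
theorem branch37 {n : ℕ} (hn : 0 < n) {h : K0} {r : U} (hr : r ^ n = algebraMap K0 U h) (hr0 : r ≠ 0)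
    {N : IntermediateField E U} (hN : IsFunctionField E N) (hMN : MM E K0 r ≤ N)
    {b : N ≃ₐ[E] N} (hbK : ∀ x : N, (x : U) ∈ L0 E K0 (U := U) → b x = x) {ξ : E}
    (hbr : ∀ x : N, (x : U) = r → b x = algebraMap E N ξ * x) {Q : Place E N}
    (hQb : ∀ x : N, (x : U) ∈ MM E K0 r → (x ∈ Q.ring ↔ b x ∈ Q.ring))
    (F : E ≃ₐ[k] E) (φ : N ≃+* N) (hφE : ∀ e : E, φ (algebraMap E N e) = algebraMap E N (F e))
    (hφK : ∀ x : N, (∃ y : K0, algebraMap K0 U y = x) → φ x = x)
    (hQQ : ∀ x : N, (x : U) ∈ MM E K0 r → (x ∈ Q.ring ↔ φ.symm x ∈ Q.ring))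
    (D : ℕ → Prop) (hD : ∀ m, D m → m ∣ n ∧ ξ ^ (n / m) ≠ 1) :
    FixesD h D F := by
  have hKM : ∀ x : K0, algebraMap K0 U x ∈ MM E K0 r := fun x =>
    subset_adjoin _ _ (Or.inl ⟨x, rfl⟩)
  have hKL : ∀ x : K0, algebraMap K0 U x ∈ L0 E K0 (U := U) := fun x =>
    subset_adjoin _ _ ⟨x, rfl⟩
  have hrM : r ∈ MM E K0 r := subset_adjoin _ _ (Or.inr rfl)
  let j : K0 →+* N := toN29 E N fun x => hMN (hKM x)
  have hj : ∀ x : K0, ((j x : N) : U) = algebraMap K0 U x := fun x => rfl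
  have hjk : ∀ a : k, j (algebraMap k K0 a) = algebraMap E N (algebraMap k E a) := by
    intro a
    apply Subtype.ext
    rw [hj]
    change _ = algebraMap E U (algebraMap k E a)
    rw [← IsScalarTower.algebraMap_apply k K0 U, ← IsScalarTower.algebraMap_apply k E U]
  obtain ⟨ρ, hρ⟩ := exists_res29 hN Q
  let P : ValuationSubring K0 := Q.ring.comap j
  have hP : ∀ x : K0, x ∈ P ↔ j x ∈ Q.ring := fun x => Iff.rfl
  let jP : P →+* Q.ring := (j.comp P.subtype).codRestrict Q.ring fun x => x.2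
  have hjP : ∀ x : P, ((jP x : Q.ring) : N) = j x := fun x => rfl
  refine ⟨P, ρ.comp jP, ?_, ?_, ?_, ?_⟩
  · intro a
    rw [hP, hjk]
    exact Q.algebraMap_mem _
  · -- the valuation
    intro m hm z hz
    obtain ⟨⟨m', hmn⟩, hξ⟩ := hD m hm
    have hm0 : 0 < m := Nat.pos_of_ne_zero (by rintro rfl; omega)
    have hnm : n / m = m' := by rw [hmn, Nat.mul_div_cancel_left _ hm0]
    rw [hnm] at hξ
    have hh0 : h ≠ 0 := by
      rintro rfl
      rw [map_zero] at hr
      exact hr0 (pow_eq_zero_iff hn.ne' |>.1 hr)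
    have hz0 : z ≠ 0 := by
      rintro rfl
      rw [map_zero, zero_pow hm0.ne', Valuation.zero_iff] at hz
      exact hh0 hz
    obtain ⟨rN, hrN⟩ : ∃ rN : N, (rN : U) = r := ⟨⟨r, hMN hrM⟩, rfl⟩
    have hrN2 : (rN ^ m') ^ m = j h := by
      apply Subtype.ext
      rw [hj, ← hr, ← hrN, ← pow_mul, hmn, mul_comm m]
      rfl
    have hjz : j z ≠ 0 := (map_ne_zero j).2 hz0
    have hrN0 : rN ≠ 0 := by
      rintro rfl
      exact hr0 hrN.symm
    -- `h / z ^ m` is a unit
    have hv : P.valuation (h / z ^ m) = 1 := by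
      rw [map_div₀, hz, map_pow, div_self]
      exact pow_ne_zero _ ((Valuation.ne_zero_iff _).2 hz0)
    have h1 : Q.ring.valuation ((rN ^ m' / j z) ^ m) = 1 := by
      have e1 : (rN ^ m' / j z) ^ m = j (h / z ^ m) := by
        rw [div_pow, hrN2, map_div₀, map_pow]
      rw [e1]
      apply le_antisymm
      · rw [ValuationSubring.valuation_le_one_iff, ← hP, ← P.valuation_le_one_iff, hv]
      · have h2 : Q.ring.valuation (j (h / z ^ m))⁻¹ ≤ 1 := by
          rw [← map_inv₀ j, ValuationSubring.valuation_le_one_iff, ← hP, ← P.valuation_le_one_iff,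
            map_inv₀, hv, inv_one]
        have h3 : Q.ring.valuation (j (h / z ^ m)) ≠ 0 := by
          rw [Valuation.ne_zero_iff]
          exact (map_ne_zero j).2 (div_ne_zero hh0 (pow_ne_zero _ hz0))
        rw [map_inv₀] at h2
        exact (inv_le_one₀ (zero_lt_iff.2 h3)).1 h2
    obtain ⟨w, hw⟩ : ∃ w : N, w = rN ^ m' / j z := ⟨_, rfl⟩
    have h2 : Q.ring.valuation w = 1 := by
      rw [← hw, map_pow] at h1
      exact (pow_eq_one_iff_of_nonneg zero_le hm0.ne').1 h1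
    have hwM : (w : U) ∈ MM E K0 r := by
      rw [hw]
      change (rN : U) ^ m' / algebraMap K0 U z ∈ _
      rw [hrN]
      exact div_mem (pow_mem hrM _) (hKM z)
    have hbz : b (j z) = j z := hbK _ (hKL z)
    have hbw : b w = algebraMap E N (ξ ^ m') * w := by
      rw [hw, map_div₀, map_pow, hbr rN hrN, hbz, mul_pow, map_pow]
      ring
    have hwQ : w ∈ Q.ring := by rw [← ValuationSubring.valuation_le_one_iff, h2]
    have h3 := hρ ⟨w, hwQ⟩
    obtain ⟨e, he⟩ : ∃ e : E, e = ρ ⟨w, hwQ⟩ := ⟨_, rfl⟩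
    rw [← he] at h3
    change w - algebraMap E N e ∈ Q.ring.nonunits at h3
    have h4 : b w - algebraMap E N e ∈ Q.ring.nonunits := by
      have hyM : (((w - algebraMap E N e)⁻¹ : N) : U) ∈ MM E K0 r := by
        change ((w : U) - algebraMap E U e)⁻¹ ∈ _
        exact inv_mem (sub_mem hwM (IntermediateField.algebraMap_mem _ e))
      have e1 : b w - algebraMap E N e = b (w - algebraMap E N e) := by
        rw [map_sub, AlgEquiv.commutes]
      rw [e1]
      rw [ValuationSubring.mem_nonunits_iff_or] at h3 ⊢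
      rcases h3 with h3 | h3
      · left
        rw [h3, map_zero]
      · right
        intro h5
        apply h3
        rw [hQb _ hyM, map_inv₀]
        exact h5
    have h5 : Q.ring.valuation (b w - w) < 1 := by
      have e1 : b w - w = (b w - algebraMap E N e) - (w - algebraMap E N e) := by ring
      rw [e1]
      exact Valuation.map_sub_lt _ ((ValuationSubring.mem_nonunits_iff _).1 h4)
        ((ValuationSubring.mem_nonunits_iff _).1 h3)
    have h6 : b w - w = algebraMap E N (ξ ^ m' - 1) * w := by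
      rw [hbw, map_sub, map_one]
      ring
    rw [h6, map_mul, h2, mul_one] at h5
    have h7 : (algebraMap E N (ξ ^ m' - 1))⁻¹ ∈ Q.ring := by
      rw [← map_inv₀]
      exact Q.algebraMap_mem _
    rcases (ValuationSubring.mem_nonunits_iff_or _).1 ((ValuationSubring.mem_nonunits_iff _).2 h5)
      with h8 | h8
    · rw [map_eq_zero_iff _ (algebraMap E N).injective, sub_eq_zero] at h8
      exact hξ h8
    · exact h8 h7
  · intro a x hx
    apply const_unique29 Q (hρ (jP x))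
    rw [hjP, hx, hjk, sub_self, ValuationSubring.mem_nonunits_iff, map_zero]
    exact zero_lt_one
  · intro x
    change F (ρ (jP x)) = ρ (jP x)
    refine const_unique29 Q (x := j x) ?_ (hρ (jP x))
    have h1 := hρ (jP x)
    rw [hjP] at h1
    have hyM : ∀ e : E, ((j x - algebraMap E N e : N) : U) ∈ MM E K0 r := by
      intro e
      exact sub_mem (hKM x) (IntermediateField.algebraMap_mem _ e)
    have hsymm : φ.symm (j x - algebraMap E N (F (ρ (jP x)))) =
        j x - algebraMap E N (ρ (jP x)) := by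
      rw [RingEquiv.symm_apply_eq, map_sub, hφE, hφK _ ⟨x, rfl⟩]
    rw [ValuationSubring.mem_nonunits_iff_or] at h1 ⊢
    rcases h1 with h1 | h1
    · left
      rw [← hsymm, map_eq_zero_iff _ φ.symm.injective] at h1
      exact h1
    · right
      intro h2
      apply h1
      have h3 : (((j x - algebraMap E N (F (ρ (jP x))))⁻¹ : N) : U) ∈ MM E K0 r :=
        inv_mem (hyM _)
      rw [hQQ _ h3, map_inv₀, hsymm] at h2
      exact h2

end branch

end

end Pool.Agent.LN2
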